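import Mathlib

/-!
# A copy of the 2 x 2 matrices inside the restricted enveloping algebra of `gl_3` in characteristic 3

Let `F` be the field with three elements and `L = gl_3(F)` with the `p`-map `x ↦ x ^ 3`.
The restricted enveloping algebra `u(L)` contains the elements `x` (the image of `diag (0,1,2)`),
`y` (the image of the matrix of a cyclic permutation) and the central-like element `z` (the image
of the identity matrix); from these one gets matrix units, and `u(L)` contains a copy of `M_2(F)`.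
-/

set_option autoImplicit false
set_option linter.unusedSimpArgs false

namespace Pool.Agent.TH37.RE

abbrev F3 := ZMod 3
abbrev M2 := Matrix (Fin 2) (Fin 2) F3

def E : Fin 4 → M2 := ![!![1,0;0,0], !![0,1;0,0], !![0,0;1,0], !![0,0;0,1]]

theorem s4E : (∑ σ : Equiv.Perm (Fin 4),
      ((Equiv.Perm.sign σ : ℤˣ) : ℤ) • (List.ofFn fun i => E (σ i)).prod) = 0 := by
  decide +kernel

theorem pow26 : ∀ A : M2, A ^ 26 = A ^ 2 := by
  decide +kernel

/-- the basis of matrix units, indexed by `Fin 4` -/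
noncomputable def bas : Module.Basis (Fin 4) F3 M2 :=
  (Matrix.stdBasis F3 (Fin 2) (Fin 2)).reindex finProdFinEquiv

theorem bas_apply (i : Fin 4) : bas i = E i := by
  rw [bas, Module.Basis.reindex_apply]
  fin_cases i <;> rw [Matrix.stdBasis_eq_single] <;> decide

/-- The standard identity of degree four for the 2 x 2 matrices. -/
theorem s4 (r : Fin 4 → M2) : (∑ σ : Equiv.Perm (Fin 4),
      ((Equiv.Perm.sign σ : ℤˣ) : ℤ) • (List.ofFn fun i => r (σ i)).prod) = 0 := by
  have hE : MultilinearMap.alternatization (MultilinearMap.mkPiAlgebraFin F3 4 M2) (fun i => bas i) = 0 := by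
    rw [MultilinearMap.alternatization_apply, ← s4E]
    apply Finset.sum_congr rfl
    intro σ _
    rw [MultilinearMap.domDomCongr_apply, MultilinearMap.mkPiAlgebraFin_apply]
    simp only [bas_apply]
    rfl
  have key : MultilinearMap.alternatization (MultilinearMap.mkPiAlgebraFin F3 4 M2) = 0 := by
    apply Module.Basis.ext_alternating bas
    intro v hv
    let σ : Equiv.Perm (Fin 4) := Equiv.ofBijective v ⟨hv, Finite.surjective_of_injective hv⟩
    have h1 := AlternatingMap.map_perm (MultilinearMap.alternatization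
      (MultilinearMap.mkPiAlgebraFin F3 4 M2)) (fun i => bas i) σ
    rw [hE, smul_zero] at h1
    exact h1
  have h := congrArg (fun g => g r) key
  simp only [MultilinearMap.alternatization_apply, AlternatingMap.zero_apply] at h
  rw [← h]
  apply Finset.sum_congr rfl
  intro σ _
  rw [MultilinearMap.domDomCongr_apply, MultilinearMap.mkPiAlgebraFin_apply]
  rfl

section Hom

variable {A : Type} [Ring A] [Algebra F3 A] (a b : A)

/-- A homomorphism from the 2 x 2 matrices defined by two off-diagonal matrix units. -/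
noncomputable def phi (haa : a * a = 0) (hbb : b * b = 0) (h1 : a * b * a = a)
    (h2 : b * a * b = b) : M2 →ₙₐ[F3] A where
  toFun X := X 0 0 • (a * b) + X 0 1 • a + X 1 0 • b + X 1 1 • (b * a)
  map_smul' c X := by
    simp only [Matrix.smul_apply, smul_eq_mul, mul_smul, smul_add]
    rfl
  map_zero' := by simp
  map_add' X Y := by
    simp only [Matrix.add_apply, add_smul]
    abel
  map_mul' X Y := by
    have e1 : a * b * (a * b) = a * b := by rw [← mul_assoc, h1]
    have e2 : a * b * b = 0 := by rw [mul_assoc, hbb, mul_zero]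
    have e3 : a * b * (b * a) = 0 := by rw [← mul_assoc, e2, zero_mul]
    have e4 : a * (a * b) = 0 := by rw [← mul_assoc, haa, zero_mul]
    have e5 : a * (b * a) = a := by rw [← mul_assoc, h1]
    have e6 : b * (a * b) = b := by rw [← mul_assoc, h2]
    have e7 : b * (b * a) = 0 := by rw [← mul_assoc, hbb, zero_mul]
    have e8 : b * a * a = 0 := by rw [mul_assoc, haa, mul_zero]
    have e9 : b * a * (a * b) = 0 := by rw [← mul_assoc, e8, zero_mul]
    have e10 : b * a * (b * a) = b * a := by rw [← mul_assoc, h2]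
    simp only [mul_add, add_mul, smul_mul_smul_comm, e1, e2, e3, e4, e5, e6, e7, e8, e9, e10,
      haa, hbb, h1, h2, smul_zero, add_zero, zero_add, Matrix.mul_apply, Fin.sum_univ_two,
      add_smul]
    abel

end Hom

/-- the cube of a sum in characteristic three -/
theorem cube_add {A : Type} [Ring A] (h3 : (3 : A) = 0) (a b : A) :
    (a + b) ^ 3 - a ^ 3 - b ^ 3 =
      (a * (a * b - b * a) - (a * b - b * a) * a) + (b * (b * a - a * b) - (b * a - a * b) * b) := by
  have : (a + b) ^ 3 - a ^ 3 - b ^ 3 -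
      ((a * (a * b - b * a) - (a * b - b * a) * a) + (b * (b * a - a * b) - (b * a - a * b) * b))
      = 3 * (a * b * a + b * a * b) := by noncomm_ring
  rw [h3, zero_mul] at this
  exact sub_eq_zero.1 this

section Units

/-- In an algebra of characteristic three with elements `x`, `y`, `z` such that
`x y = y x + y`, `x ^ 3 = x`, `y ^ 3 = z`, `z ^ 3 = z` there are off-diagonal matrix units. -/
theorem exists_units {A : Type} [Ring A] (h3 : (3 : A) = 0) (x y z : A) (hxy : x * y = y * x + y)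
    (hx : x ^ 3 = x) (hy : y ^ 3 = z) (hz : z ^ 3 = z) :
    ∃ a b : A, a = y ^ 2 * (-(x ^ 2 + x)) * (-(z ^ 2 + z)) ∧ b = y * (1 - x ^ 2) * (-(z ^ 2 + z)) ∧
      a * a = 0 ∧ b * b = 0 ∧ a * b * a = a ∧ b * a * b = b := by
  have hx4 : x ^ 4 = x ^ 2 := by rw [pow_succ x 3, hx, ← sq]
  have hz4 : z ^ 4 = z ^ 2 := by rw [pow_succ z 3, hz, ← sq]
  have hxxy : x ^ 2 * y = y * x ^ 2 + 2 * (y * x) + y := by
    rw [sq, mul_assoc, hxy, mul_add, hxy, ← mul_assoc, hxy]
    noncomm_ring
  have hxy2 : x * y ^ 2 = y ^ 2 * x + 2 * y ^ 2 := by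
    rw [sq, ← mul_assoc, hxy, add_mul, mul_assoc, hxy]
    noncomm_ring
  have hxz : x * z = z * x := by
    rw [← hy, pow_succ, ← mul_assoc, hxy2, add_mul, mul_assoc, hxy]
    have : y ^ 2 * (y * x + y) + 2 * y ^ 2 * y = y ^ 2 * y * x + 3 * (y ^ 2 * y) := by noncomm_ring
    rw [this, h3, zero_mul, add_zero]
  have hyz : y * z = z * y := by rw [← hy, ← pow_succ, ← pow_succ']
  obtain ⟨f, hf⟩ : ∃ f, f = -(z ^ 2 + z) := ⟨_, rfl⟩
  obtain ⟨e0, he0⟩ : ∃ e0, e0 = 1 - x ^ 2 := ⟨_, rfl⟩
  obtain ⟨e1, he1⟩ : ∃ e1, e1 = -(x ^ 2 + x) := ⟨_, rfl⟩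
  obtain ⟨e2, he2⟩ : ∃ e2, e2 = x - x ^ 2 := ⟨_, rfl⟩
  have cxz : Commute x z := hxz
  have cyz : Commute y z := hyz
  have cxf : Commute x f := by
    rw [hf]; exact ((cxz.pow_right 2).add_right cxz).neg_right
  have cyf : Commute y f := by
    rw [hf]; exact ((cyz.pow_right 2).add_right cyz).neg_right
  have cf0 : Commute e0 f := by
    rw [he0]; exact (Commute.one_left f).sub_left (cxf.pow_left 2)
  have cf1 : Commute e1 f := by
    rw [he1]; exact ((cxf.pow_left 2).add_left cxf).neg_left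
  have cf2 : Commute e2 f := by
    rw [he2]; exact cxf.sub_left (cxf.pow_left 2)
  have ff : f * f = f := by
    have : f * f = z ^ 4 + 2 * z ^ 3 + z ^ 2 := by rw [hf]; noncomm_ring
    rw [this, hz, hz4, hf]
    have h : z ^ 2 + 2 * z + z ^ 2 = -(z ^ 2 + z) + 3 * (z ^ 2 + z) := by noncomm_ring
    rw [h, h3, zero_mul, add_zero]
  have zf : z * f = f := by
    have : z * f = -(z ^ 3 + z ^ 2) := by rw [hf]; noncomm_ring
    rw [this, hz, hf, add_comm]
  have e00 : e0 * e0 = e0 := by
    have : e0 * e0 = 1 - 2 * x ^ 2 + x ^ 4 := by rw [he0]; noncomm_ring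
    rw [this, hx4, he0]; noncomm_ring
  have e11 : e1 * e1 = e1 := by
    have : e1 * e1 = x ^ 4 + 2 * x ^ 3 + x ^ 2 := by rw [he1]; noncomm_ring
    rw [this, hx, hx4, he1]
    have h : x ^ 2 + 2 * x + x ^ 2 = -(x ^ 2 + x) + 3 * (x ^ 2 + x) := by noncomm_ring
    rw [h, h3, zero_mul, add_zero]
  have e20 : e2 * e0 = 0 := by
    have : e2 * e0 = x - x ^ 3 - x ^ 2 + x ^ 4 := by rw [he0, he2]; noncomm_ring
    rw [this, hx, hx4]; noncomm_ring
  have e21 : e2 * e1 = 0 := by
    have : e2 * e1 = -x ^ 2 + x ^ 4 := by rw [he1, he2]; noncomm_ring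
    rw [this, hx4]; noncomm_ring
  have e0y : e0 * y = y * e2 := by
    have : e0 * y = y - x ^ 2 * y := by rw [he0]; noncomm_ring
    rw [this, hxxy, he2]
    have h : y - (y * x ^ 2 + 2 * (y * x) + y) = y * (x - x ^ 2) - 3 * (y * x) := by noncomm_ring
    rw [h, h3, zero_mul, sub_zero]
  have e1y : e1 * y = y * e0 := by
    have : e1 * y = -(x ^ 2 * y + x * y) := by rw [he1]; noncomm_ring
    rw [this, hxxy, hxy, he0]
    have h : -(y * x ^ 2 + 2 * (y * x) + y + (y * x + y)) =
      y * (1 - x ^ 2) - 3 * (y * x + y) := by noncomm_ring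
    rw [h, h3, zero_mul, sub_zero]
  have e2y : e2 * y = y * e1 := by
    have : e2 * y = x * y - x ^ 2 * y := by rw [he2]; noncomm_ring
    rw [this, hxxy, hxy, he1]; noncomm_ring
  have fy' : ∀ X, f * (y * X) = y * (f * X) := fun X => by
    rw [← mul_assoc, ← cyf.eq, mul_assoc]
  have f0' : ∀ X, f * (e0 * X) = e0 * (f * X) := fun X => by
    rw [← mul_assoc, ← cf0.eq, mul_assoc]
  have f1' : ∀ X, f * (e1 * X) = e1 * (f * X) := fun X => by
    rw [← mul_assoc, ← cf1.eq, mul_assoc]
  have e0y' : ∀ X, e0 * (y * X) = y * (e2 * X) := fun X => by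
    rw [← mul_assoc, e0y, mul_assoc]
  have e1y' : ∀ X, e1 * (y * X) = y * (e0 * X) := fun X => by
    rw [← mul_assoc, e1y, mul_assoc]
  have e2y' : ∀ X, e2 * (y * X) = y * (e1 * X) := fun X => by
    rw [← mul_assoc, e2y, mul_assoc]
  have e00' : ∀ X, e0 * (e0 * X) = e0 * X := fun X => by rw [← mul_assoc, e00]
  have e11' : ∀ X, e1 * (e1 * X) = e1 * X := fun X => by rw [← mul_assoc, e11]
  have e20' : ∀ X, e2 * (e0 * X) = 0 := fun X => by rw [← mul_assoc, e20, zero_mul]
  have e21' : ∀ X, e2 * (e1 * X) = 0 := fun X => by rw [← mul_assoc, e21, zero_mul]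
  have y3 : ∀ X, y * (y * (y * X)) = z * X := fun X => by
    rw [← hy]; noncomm_ring
  have z0' : z * (e0 * f) = e0 * f := by
    rw [cf0.eq, ← mul_assoc, zf]
  have z1' : z * (e1 * f) = e1 * f := by
    rw [cf1.eq, ← mul_assoc, zf]
  have hab : y ^ 2 * e1 * f * (y * e0 * f) = e0 * f := by
    simp only [sq, mul_assoc, fy', f0', f1', e0y', e1y', e2y', e00', e11', e20', e21', ff, y3, z0']
  refine ⟨y ^ 2 * e1 * f, y * e0 * f, by rw [he1, hf], by rw [he0, hf], ?_, ?_, ?_, ?_⟩
  · simp only [sq, mul_assoc, fy', f0', f1', e0y', e1y', e2y', e00', e11', e20', e21', ff, mul_zero]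
  · simp only [mul_assoc, fy', f0', f1', e0y', e1y', e2y', e00', e11', e20', e21', ff, mul_zero]
  · rw [hab]
    simp only [sq, mul_assoc, fy', f0', f1', e0y', e1y', e2y', e00', e11', e20', e21', ff]
  · rw [mul_assoc (y * e0 * f), hab]
    simp only [mul_assoc, fy', f0', f1', e0y', e1y', e2y', e00', e11', e20', e21', ff]

end Units

theorem three_eq_zero (A : Type) [Ring A] [Algebra F3 A] : (3 : A) = 0 := by
  have h := map_ofNat (algebraMap F3 A) 3
  have h' : (OfNat.ofNat 3 : F3) = 0 := by decide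
  rw [h', map_zero] at h
  exact h.symm


end Pool.Agent.TH37.RE
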